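import Mathlib
import Pool.Agent.H47.PIMain

/-!
# Lattice restrictions of parabolically induced actions

If the restrictions to a lattice `Γ` of the two `G`-actions induced from the flows `ρX` and `ρY`
are conjugate, then the conjugacy is `G`-equivariant and the flows are conjugate.
-/

set_option autoImplicit false

open scoped Manifold ContDiff

universe u v w z

namespace Pool.Agent.Results.MP_7614c4_an.FlowRigidity

/-- `G` is a connected simple Lie group of real rank at least two, `Γ` a lattice, `Q` a parabolic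
subgroup, `φ : Q → ℝ` a continuous homomorphism, `ρX` and `ρY` are smooth flows on `M` and `M'`, and
`N = (G × M) / Q`, `N' = (G × M') / Q` are the induced `G`-manifolds. If `h : N → N'` is a
diffeomorphism commuting with `Γ`, then `h` commutes with `G`, and there is a diffeomorphism
`h₀ : M → M'` which intertwines `ρX t` and `ρY t` for all `t` in the closure of `φ(Q)`, hence for
all `t` if `φ` is nontrivial on the identity component of `Q`. -/
theorem result
    {E : Type u} [NormedAddCommGroup E] [NormedSpace ℝ E] [FiniteDimensional ℝ E]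
    {G : Type v} [TopologicalSpace G] [ChartedSpace E G] [Group G] [LieGroup 𝓘(ℝ, E) ∞ G]
    [T2Space G] [SecondCountableTopology G] [ConnectedSpace G]
    (hsimple : LieAlgebra.IsSimple ℝ (GroupLieAlgebra 𝓘(ℝ, E) G))
    (hrank : PI.RealRankGeTwo (GroupLieAlgebra 𝓘(ℝ, E) G))
    (Γ : Subgroup G) (hΓ : PI.IsLattice Γ)
    (Q : Subgroup G) (hQ : PI.IsParabolic E Q)
    (φ : Q → ℝ) (hφ : PI.IsChar Q φ)
    {EM : Type w} [NormedAddCommGroup EM] [NormedSpace ℝ EM]
    {M : Type z} [TopologicalSpace M] [ChartedSpace EM M] [IsManifold 𝓘(ℝ, EM) ∞ M] [T2Space M]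
    {EM' : Type w} [NormedAddCommGroup EM'] [NormedSpace ℝ EM']
    {M' : Type z} [TopologicalSpace M'] [ChartedSpace EM' M'] [IsManifold 𝓘(ℝ, EM') ∞ M']
    [T2Space M']
    (ρX : ℝ → M → M) (hX : PI.IsSmoothFlow EM ρX)
    (ρY : ℝ → M' → M') (hY : PI.IsSmoothFlow EM' ρY)
    {EN : Type w} [NormedAddCommGroup EN] [NormedSpace ℝ EN]
    {N : Type z} [TopologicalSpace N] [ChartedSpace EN N] [IsManifold 𝓘(ℝ, EN) ∞ N] [T2Space N]
    [MulAction G N] (π : G × M → N) (hπ : PI.IsInduced E EM EN φ ρX π)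
    {EN' : Type w} [NormedAddCommGroup EN'] [NormedSpace ℝ EN']
    {N' : Type z} [TopologicalSpace N'] [ChartedSpace EN' N'] [IsManifold 𝓘(ℝ, EN') ∞ N']
    [T2Space N'] [MulAction G N'] (π' : G × M' → N') (hπ' : PI.IsInduced E EM' EN' φ ρY π')
    (h : N ≃ₘ⟮𝓘(ℝ, EN), 𝓘(ℝ, EN')⟯ N') (hh : ∀ γ ∈ Γ, ∀ y : N, h (γ • y) = γ • h y) :
    (∀ (g : G) (y : N), h (g • y) = g • h y) ∧
      ∃ h₀ : M ≃ₘ⟮𝓘(ℝ, EM), 𝓘(ℝ, EM')⟯ M',
        (∀ t ∈ closure (Set.range φ), ∀ m, h₀ (ρX t m) = ρY t (h₀ m)) ∧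
        ((∃ q ∈ connectedComponent (1 : Q), φ q ≠ 0) → ∀ t m, h₀ (ρX t m) = ρY t (h₀ m)) := by
  obtain ⟨H, hH⟩ := hQ
  exact PI.exists_diffeo hΓ.2 hrank hH hφ hX hY hπ hπ' h hh

end Pool.Agent.Results.MP_7614c4_an.FlowRigidity
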